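import Pool.Agent.H83.VU.TargetsG

/-!
# ODD: the weight of the odd multiples of the odd number `d`
-/

set_option autoImplicit false

open Finset Pool.Agent.H83.VU

namespace Pool.Agent.H36.VU

namespace ODD

theorem sum_odd (g : ℕ → ℂ) (N d : ℕ) (hd : Odd d) :
    ∑ n ∈ (Ioc N (2 * N)).filter (fun n => Odd n ∧ d ∣ n), g n =
      ∑ m ∈ Ioc (N / d) (2 * N / d), g (d * m) -
        ∑ m ∈ Ioc (N / d / 2) (N / d), g (d * (2 * m)) := by
  have h0 : 0 < d := hd.pos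
  have hA : ∑ n ∈ (Ioc N (2 * N)).filter (fun n => Odd n ∧ d ∣ n), g n =
      ∑ m ∈ (Ioc (N / d) (2 * N / d)).filter (fun m => Odd m), g (d * m) := by
    refine Finset.sum_nbij' (fun n => n / d) (fun m => d * m) ?_ ?_ ?_ ?_ ?_
    · intro n hn
      rw [mem_filter, mem_Ioc] at hn
      obtain ⟨⟨h1, h2⟩, h3, m, rfl⟩ := hn
      show d * m / d ∈ _
      rw [Nat.mul_div_cancel_left m h0, mem_filter, mem_Ioc, Nat.div_lt_iff_lt_mul h0,
        Nat.le_div_iff_mul_le h0, mul_comm m d]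
      exact ⟨⟨h1, h2⟩, (Nat.odd_mul.1 h3).2⟩
    · intro m hm
      rw [mem_filter, mem_Ioc, Nat.div_lt_iff_lt_mul h0, Nat.le_div_iff_mul_le h0,
        mul_comm m d] at hm
      rw [mem_filter, mem_Ioc]
      exact ⟨hm.1, Nat.odd_mul.2 ⟨hd, hm.2⟩, dvd_mul_right _ _⟩
    · intro n hn
      rw [mem_filter, mem_Ioc] at hn
      exact Nat.mul_div_cancel' hn.2.2
    · intro m _
      exact Nat.mul_div_cancel_left m h0
    · intro n hn
      rw [mem_filter, mem_Ioc] at hn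
      show g n = g (d * (n / d))
      rw [Nat.mul_div_cancel' hn.2.2]
  have hhalf : 2 * N / d / 2 = N / d := by
    rw [Nat.div_div_eq_div_mul, mul_comm d 2, Nat.mul_div_mul_left _ _ (by norm_num)]
  have hB : ∑ m ∈ (Ioc (N / d) (2 * N / d)).filter (fun m => ¬ Odd m), g (d * m) =
      ∑ m ∈ Ioc (N / d / 2) (N / d), g (d * (2 * m)) := by
    symm
    refine Finset.sum_nbij' (fun m => 2 * m) (fun m => m / 2) ?_ ?_ ?_ ?_ ?_
    · intro m hm
      rw [mem_Ioc] at hm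
      rw [mem_filter, mem_Ioc, Nat.not_odd_iff_even]
      refine ⟨⟨?_, ?_⟩, even_two_mul m⟩
      · have := hm.1
        omega
      · have h1 := hm.2
        rw [← hhalf] at h1
        omega
    · intro m hm
      rw [mem_filter, mem_Ioc, Nat.not_odd_iff_even] at hm
      obtain ⟨⟨h1, h2⟩, l, rfl⟩ := hm
      show (l + l) / 2 ∈ _
      rw [mem_Ioc, ← hhalf]
      omega
    · intro m _
      show 2 * m / 2 = m
      omega
    · intro m hm
      rw [mem_filter, Nat.not_odd_iff_even] at hm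
      obtain ⟨_, l, rfl⟩ := hm
      show 2 * ((l + l) / 2) = l + l
      omega
    · intro m _
      rfl
  rw [hA, ← hB, ← Finset.sum_filter_add_sum_filter_not (Ioc (N / d) (2 * N / d)) (fun m => Odd m)]
  ring

/-- the primitive -/
noncomputable def F (u t : ℝ) : ℂ :=
  (t : ℂ) * Complex.exp ((u * Real.log t : ℝ) * Complex.I) / (1 + (u : ℂ) * Complex.I)

theorem one_add_ne (u : ℝ) : (1 + (u : ℂ) * Complex.I) ≠ 0 := by
  intro h
  have := congrArg Complex.re h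
  simp at this

theorem F_deriv (u : ℝ) {t : ℝ} (ht : 0 < t) :
    HasDerivAt (F u) (Complex.exp ((u * Real.log t : ℝ) * Complex.I)) t := by
  have h1 : HasDerivAt (fun t : ℝ => ((u * Real.log t : ℝ) : ℂ)) ((u * t⁻¹ : ℝ) : ℂ) t :=
    ((Real.hasDerivAt_log ht.ne').const_mul u).ofReal_comp
  have h2 := (h1.mul_const Complex.I).cexp
  have h3 : HasDerivAt (fun t : ℝ => (t : ℂ)) ((1 : ℝ) : ℂ) t := (hasDerivAt_id t).ofReal_comp
  have h4 := (h3.mul h2).div_const (1 + (u : ℂ) * Complex.I)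
  refine h4.congr_deriv ?_
  have hu := one_add_ne u
  have ht' : (t : ℂ) ≠ 0 := by exact_mod_cast ht.ne'
  push_cast
  field_simp

theorem F_lip (u : ℝ) {x y : ℝ} (hx : 0 < x) (hy : 0 < y) : ‖F u x - F u y‖ ≤ |x - y| := by
  have h := (convex_Ioi (0 : ℝ)).norm_image_sub_le_of_norm_hasDerivWithin_le (f := F u) (C := 1)
    (f' := fun t => Complex.exp ((u * Real.log t : ℝ) * Complex.I))
    (fun t ht => (F_deriv u ht).hasDerivWithinAt)
    (fun t _ => (Complex.norm_exp_ofReal_mul_I _).le) (show y ∈ Set.Ioi (0 : ℝ) from hy)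
    (show x ∈ Set.Ioi (0 : ℝ) from hx)
  rw [one_mul, Real.norm_eq_abs] at h
  exact h

theorem F_nat (u : ℝ) (n : ℕ) : F u n = (n : ℂ) * ni u n / (1 + (u : ℂ) * Complex.I) := by
  unfold F ni
  push_cast
  rfl

theorem ni_F (u : ℝ) (d : ℕ) (hd : d ≠ 0) {x : ℝ} (hx : 0 < x) :
    ni u d * F u (x / d) = F u x / d := by
  have hd' : (0 : ℝ) < d := by positivity
  unfold ni F
  rw [Real.log_div hx.ne' hd'.ne']
  have h1 : Complex.exp ((u * Real.log d : ℝ) * Complex.I) *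
      Complex.exp ((u * (Real.log x - Real.log d) : ℝ) * Complex.I) =
      Complex.exp ((u * Real.log x : ℝ) * Complex.I) := by
    rw [← Complex.exp_add]
    congr 1
    push_cast
    ring
  rw [← h1]
  push_cast
  ring

end ODD

open ODD

theorem pf_ODD (hALL : T_ALL) : T_ODD := by
  obtain ⟨N₁, hN₁⟩ := hALL
  refine ⟨⌈(max (Real.exp (2 ^ 30)) N₁) ^ 4⌉₊, ?_⟩
  intro N d u w hN hd hdN hu hw
  set X := max (Real.exp (2 ^ 30)) (N₁ : ℝ) with hX
  have hX0 : 0 < X := lt_of_lt_of_le (Real.exp_pos _) (le_max_left _ _)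
  have hXN : X ^ 4 ≤ (N : ℝ) := (Nat.le_ceil _).trans (by exact_mod_cast hN)
  have hN0 : (0 : ℝ) < N := lt_of_lt_of_le (by positivity) hXN
  set L := Real.log N / 4 with hL
  have hlog : Real.log X ≤ L := by
    have h1 := Real.log_le_log (by positivity) hXN
    rw [Real.log_pow] at h1
    push_cast at h1
    rw [hL]
    linarith
  have hXL : X ≤ Real.exp L := by
    rw [← Real.log_le_iff_le_exp hX0]
    exact hlog
  have hL30 : (2 : ℝ) ^ 30 ≤ L := by
    have h1 : Real.log (Real.exp (2 ^ 30)) ≤ Real.log X :=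
      Real.log_le_log (Real.exp_pos _) (le_max_left _ _)
    rw [Real.log_exp] at h1
    linarith
  have hL0 : 0 < L := by linarith [show (0 : ℝ) < 2 ^ 30 by positivity]
  have hexp4 : 4 ≤ Real.exp L := by
    have h1 := Real.add_one_le_exp L
    have h2 : (3 : ℝ) ≤ 2 ^ 30 := by norm_num
    linarith
  have hN₁L : (N₁ : ℝ) ≤ Real.exp L := (le_max_right _ _).trans hXL
  have hsqrt : (N : ℝ) ^ (1 / 2 : ℝ) = Real.exp L ^ 2 := by
    rw [Real.rpow_def_of_pos hN0, ← Real.exp_nat_mul]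
    congr 1
    rw [hL]
    push_cast
    ring
  have hNL : (N : ℝ) = Real.exp L ^ 4 := by
    rw [← Real.exp_nat_mul, hL]
    push_cast
    rw [mul_div_cancel₀ _ (by norm_num : (4 : ℝ) ≠ 0), Real.exp_log hN0]
  rw [hsqrt] at hdN
  have hd0 : (0 : ℝ) < d := by exact_mod_cast hd.pos
  set R := (N : ℝ) / d with hR
  have hRL : Real.exp L ^ 2 ≤ R := by
    rw [hR, le_div_iff₀ hd0, hNL]
    have h1 : Real.exp L ^ 4 = Real.exp L ^ 2 * Real.exp L ^ 2 := by ring
    rw [h1]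
    exact mul_le_mul_of_nonneg_left hdN (by positivity)
  have hR0 : 0 < R := lt_of_lt_of_le (by positivity) hRL
  -- the four natural numbers
  set M := N / d with hM
  set M' := 2 * N / d with hM'
  have f1 : (M : ℝ) ≤ R ∧ R < M + 1 := by
    have h1 : ⌊R⌋₊ = M := by
      rw [hR, hM]
      exact Nat.floor_div_eq_div N d
    rw [← h1]
    exact ⟨Nat.floor_le hR0.le, Nat.lt_floor_add_one R⟩
  have f2 : (M' : ℝ) ≤ 2 * R ∧ 2 * R < M' + 1 := by
    have h1 : ⌊2 * R⌋₊ = M' := by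
      rw [hR, hM', mul_div_assoc']
      have := Nat.floor_div_eq_div (K := ℝ) (2 * N) d
      push_cast at this
      exact this
    rw [← h1]
    exact ⟨Nat.floor_le (by positivity), Nat.lt_floor_add_one _⟩
  have f3 : ((M / 2 : ℕ) : ℝ) ≤ R / 2 ∧ R / 2 < ((M / 2 : ℕ) : ℝ) + 1 := by
    have h1 : 2 * (M / 2) ≤ M := Nat.mul_div_le M 2
    have h2 : M < 2 * (M / 2) + 2 := by omega
    have h3 : (2 : ℝ) * ((M / 2 : ℕ) : ℝ) ≤ M := by exact_mod_cast h1
    have h4 : (M : ℝ) + 1 ≤ 2 * ((M / 2 : ℕ) : ℝ) + 2 := by exact_mod_cast h2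
    constructor
    · linarith [f1.1]
    · linarith [f1.2]
  have hsq4 : 4 * Real.exp L ≤ R := by
    refine le_trans ?_ hRL
    rw [pow_two]
    exact mul_le_mul_of_nonneg_right hexp4 (Real.exp_pos _).le
  have hH : Real.exp L ≤ ((M / 2 : ℕ) : ℝ) := by linarith [f3.2]
  have hMge : Real.exp L ≤ (M : ℝ) := by linarith [f1.2]
  have hHM : M / 2 ≤ M := Nat.div_le_self M 2
  have hH1 : 1 ≤ M / 2 := by
    have h1 : (1 : ℝ) ≤ ((M / 2 : ℕ) : ℝ) := by linarith
    exact_mod_cast h1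
  have hMM' : M ≤ M' := by
    rw [hM, hM']
    exact Nat.div_le_div_right (by omega)
  have hM'3 : M' ≤ 3 * M := by
    have h1 : (M' : ℝ) < 3 * M + 1 := by linarith [f2.1, f1.2]
    have h2 : M' < 3 * M + 1 := by exact_mod_cast h1
    omega
  have hlogH : L ≤ Real.log ((M / 2 : ℕ) : ℝ) := by
    rw [Real.le_log_iff_exp_le (by linarith)]
    exact hH
  have hlogM : L ≤ Real.log (M : ℝ) := by
    rw [Real.le_log_iff_exp_le (by linarith)]
    exact hMge
  have hu1 : |u| ≤ Real.exp (Real.log ((M / 2 : ℕ) : ℝ) ^ (13 / 12 : ℝ)) :=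
    hu.trans (Real.exp_le_exp.2 (Real.rpow_le_rpow hL0.le hlogH (by norm_num)))
  have hu2 : |u| ≤ Real.exp (Real.log (M : ℝ) ^ (13 / 12 : ℝ)) :=
    hu.trans (Real.exp_le_exp.2 (Real.rpow_le_rpow hL0.le hlogM (by norm_num)))
  have hN₁H : N₁ ≤ M / 2 := by
    have h1 : (N₁ : ℝ) ≤ ((M / 2 : ℕ) : ℝ) := hN₁L.trans hH
    exact_mod_cast h1
  have E1 := hN₁ M M' (hN₁H.trans hHM) hMM' hM'3 u hu2
  have E2 := hN₁ (M / 2) M hN₁H hHM (by omega) u hu1
  set Q := Real.exp (-(L ^ (1 / 5 : ℝ))) with hQ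
  have hQ0 : 0 < Q := Real.exp_pos _
  have hQM : Real.exp (-(Real.log (M : ℝ) ^ (1 / 5 : ℝ))) ≤ Q :=
    Real.exp_le_exp.2 (neg_le_neg (Real.rpow_le_rpow hL0.le hlogM (by norm_num)))
  have hQH : Real.exp (-(Real.log ((M / 2 : ℕ) : ℝ) ^ (1 / 5 : ℝ))) ≤ Q :=
    Real.exp_le_exp.2 (neg_le_neg (Real.rpow_le_rpow hL0.le hlogH (by norm_num)))
  have B1 : ‖∑ n ∈ Ioc M M', ni u n - (F u M' - F u M)‖ ≤ R * Q := by
    rw [F_nat, F_nat, ← sub_div]
    refine E1.trans ?_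
    exact mul_le_mul f1.1 hQM (Real.exp_pos _).le hR0.le
  have B2 : ‖∑ n ∈ Ioc (M / 2) M, ni u n - (F u M - F u ((M / 2 : ℕ) : ℝ))‖ ≤ R * Q := by
    rw [F_nat, F_nat, ← sub_div]
    refine E2.trans ?_
    exact mul_le_mul (by linarith [f3.1]) hQH (Real.exp_pos _).le hR0.le
  have hM0 : (0 : ℝ) < M := by linarith
  have hM'0 : (0 : ℝ) < M' := by
    have : (M : ℝ) ≤ M' := by exact_mod_cast hMM'
    linarith
  have hH0 : (0 : ℝ) < ((M / 2 : ℕ) : ℝ) := by linarith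
  have G1 : ‖F u M' - F u (2 * R)‖ ≤ 1 :=
    (F_lip u hM'0 (by positivity)).trans (abs_le.2 ⟨by linarith [f2.2], by linarith [f2.1]⟩)
  have G2 : ‖F u M - F u R‖ ≤ 1 :=
    (F_lip u hM0 hR0).trans (abs_le.2 ⟨by linarith [f1.2], by linarith [f1.1]⟩)
  have G3 : ‖F u ((M / 2 : ℕ) : ℝ) - F u (R / 2)‖ ≤ 1 :=
    (F_lip u hH0 (by positivity)).trans (abs_le.2 ⟨by linarith [f3.2], by linarith [f3.1]⟩)
  -- the main terms
  have hdne : d ≠ 0 := hd.pos.ne'
  have m1 : ni u d * F u (2 * R) = F u (2 * N) / d := by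
    rw [← ni_F u d hdne (by positivity : (0 : ℝ) < 2 * N), hR, mul_div_assoc]
  have m2 : ni u d * F u R = F u N / d := by
    rw [← ni_F u d hdne hN0]
  have m3 : ni u 2 * F u R = F u (2 * R) / 2 := by
    have := ni_F u 2 two_ne_zero (by positivity : (0 : ℝ) < 2 * R)
    rw [show (2 * R / ((2 : ℕ) : ℝ)) = R by push_cast; ring] at this
    rw [this]
    push_cast
    rfl
  have m4 : ni u 2 * F u (R / 2) = F u R / 2 := by
    have := ni_F u 2 two_ne_zero hR0
    rw [show (R / ((2 : ℕ) : ℝ)) = R / 2 by push_cast; ring] at this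
    rw [this]
    push_cast
    rfl
  have m5 : F u (2 * N) - F u N = (N : ℂ) * ni u N * mi u := by
    have h1 : F u (2 * N) = ((2 * N : ℕ) : ℂ) * ni u (2 * N) / (1 + (u : ℂ) * Complex.I) := by
      rw [← F_nat]
      push_cast
      rfl
    have hNne : N ≠ 0 := by
      rintro rfl
      simp at hN0
    rw [h1, F_nat, ni_mul u 2 N two_ne_zero hNne]
    unfold mi
    push_cast
    ring
  -- the sum
  have hS : ∑ n ∈ (Ioc N (2 * N)).filter (fun n => Odd n ∧ d ∣ n), ni u n =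
      ni u d * (∑ m ∈ Ioc M M', ni u m - ni u 2 * ∑ m ∈ Ioc (M / 2) M, ni u m) := by
    rw [sum_odd _ N d hd, mul_sub, mul_sum, mul_sum, mul_sum]
    congr 1
    · refine sum_congr rfl fun m hm => ni_mul u d m hdne ?_
      have := (mem_Ioc.1 hm).1
      omega
    · refine sum_congr rfl fun m hm => ?_
      have h1 := (mem_Ioc.1 hm).1
      rw [ni_mul u d (2 * m) hdne (by omega), ni_mul u 2 m two_ne_zero (by omega)]
  have hmain : ni u d * ((F u (2 * R) - F u R) - ni u 2 * (F u R - F u (R / 2))) =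
      (N : ℂ) / (2 * d) * (ni u N * mi u) := by
    have hdc : (d : ℂ) ≠ 0 := by exact_mod_cast hdne
    calc ni u d * ((F u (2 * R) - F u R) - ni u 2 * (F u R - F u (R / 2)))
        = ni u d * ((F u (2 * R) - F u R) - (ni u 2 * F u R - ni u 2 * F u (R / 2))) := by ring
      _ = ni u d * ((F u (2 * R) - F u R) - (F u (2 * R) / 2 - F u R / 2)) := by rw [m3, m4]
      _ = (ni u d * F u (2 * R) - ni u d * F u R) / 2 := by ring
      _ = (F u (2 * N) - F u N) / (2 * d) := by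
        rw [m1, m2]
        field_simp
      _ = _ := by
        rw [m5]
        field_simp
  have T1 : ‖∑ n ∈ (Ioc N (2 * N)).filter (fun n => Odd n ∧ d ∣ n), ni u n -
      (N : ℂ) / (2 * d) * (ni u N * mi u)‖ ≤ 2 * (R * Q) + 4 := by
    rw [hS, ← hmain, ← mul_sub, norm_mul, norm_ni, one_mul]
    have h1 : (∑ m ∈ Ioc M M', ni u m - ni u 2 * ∑ m ∈ Ioc (M / 2) M, ni u m) -
        ((F u (2 * R) - F u R) - ni u 2 * (F u R - F u (R / 2))) =
        (∑ m ∈ Ioc M M', ni u m - (F u M' - F u M)) +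
        (F u M' - F u (2 * R)) - (F u M - F u R) -
        ni u 2 * ((∑ n ∈ Ioc (M / 2) M, ni u n - (F u M - F u ((M / 2 : ℕ) : ℝ))) +
          (F u M - F u R) - (F u ((M / 2 : ℕ) : ℝ) - F u (R / 2))) := by ring
    rw [h1]
    refine (norm_sub_le _ _).trans ?_
    rw [norm_mul, norm_ni, one_mul]
    have h2 := norm_sub_le ((∑ m ∈ Ioc M M', ni u m - (F u M' - F u M)) +
        (F u M' - F u (2 * R))) (F u M - F u R)
    have h3 := norm_add_le (∑ m ∈ Ioc M M', ni u m - (F u M' - F u M)) (F u M' - F u (2 * R))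
    have h4 := norm_sub_le ((∑ n ∈ Ioc (M / 2) M, ni u n - (F u M - F u ((M / 2 : ℕ) : ℝ))) +
          (F u M - F u R)) (F u ((M / 2 : ℕ) : ℝ) - F u (R / 2))
    have h5 := norm_add_le (∑ n ∈ Ioc (M / 2) M, ni u n - (F u M - F u ((M / 2 : ℕ) : ℝ)))
      (F u M - F u R)
    linarith
  -- the count
  have T0 : |(∑ n ∈ (Ioc N (2 * N)).filter (fun n => Odd n ∧ d ∣ n), (1 : ℝ)) -
      (N : ℝ) / (2 * d)| ≤ 4 := by
    have h1 := sum_odd (fun _ => (1 : ℂ)) N d hd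
    simp only [sum_const, Nat.card_Ioc, nsmul_eq_mul, mul_one] at h1
    have h2 : (∑ n ∈ (Ioc N (2 * N)).filter (fun n => Odd n ∧ d ∣ n), (1 : ℝ)) =
        ((M' : ℝ) - M) - (M - ((M / 2 : ℕ) : ℝ)) := by
      rw [sum_const, nsmul_eq_mul, mul_one]
      have h3 : ((((Ioc N (2 * N)).filter (fun n => Odd n ∧ d ∣ n)).card : ℝ) : ℂ) =
          ((((M' : ℝ) - M) - (M - ((M / 2 : ℕ) : ℝ)) : ℝ) : ℂ) := by
        rw [← hM, ← hM', Nat.cast_sub hMM', Nat.cast_sub hHM] at h1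
        push_cast
        exact h1
      exact_mod_cast h3
    have h4 : (N : ℝ) / (2 * d) = R / 2 := by
      rw [hR]
      field_simp
    rw [h2, h4, abs_le]
    constructor
    · linarith [f1.1, f2.2, f3.1]
    · linarith [f1.2, f2.1, f3.2]
  -- put together
  have hsum : ∑ n ∈ (Ioc N (2 * N)).filter (fun n => Odd n ∧ d ∣ n), wc u w n -
      (N : ℝ) / 2 * (1 + (w * ni u N * mi u).re) / d =
      ((∑ n ∈ (Ioc N (2 * N)).filter (fun n => Odd n ∧ d ∣ n), (1 : ℝ)) - (N : ℝ) / (2 * d)) +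
      (w * (∑ n ∈ (Ioc N (2 * N)).filter (fun n => Odd n ∧ d ∣ n), ni u n -
      (N : ℂ) / (2 * d) * (ni u N * mi u))).re := by
    have h1 : ∑ n ∈ (Ioc N (2 * N)).filter (fun n => Odd n ∧ d ∣ n), wc u w n =
        (∑ n ∈ (Ioc N (2 * N)).filter (fun n => Odd n ∧ d ∣ n), (1 : ℝ)) +
        (w * ∑ n ∈ (Ioc N (2 * N)).filter (fun n => Odd n ∧ d ∣ n), ni u n).re := by
      rw [mul_sum, Complex.re_sum, ← sum_add_distrib]
      rfl
    have h2 : (w * ((N : ℂ) / (2 * d) * (ni u N * mi u))).re =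
        (N : ℝ) / (2 * d) * (w * ni u N * mi u).re := by
      have h3 : w * ((N : ℂ) / (2 * d) * (ni u N * mi u)) =
          (((N : ℝ) / (2 * d) : ℝ) : ℂ) * (w * ni u N * mi u) := by
        push_cast
        ring
      rw [h3, Complex.re_ofReal_mul]
    rw [h1, mul_sub, Complex.sub_re, h2]
    field_simp
    ring
  rw [hsum]
  have hre : |(w * (∑ n ∈ (Ioc N (2 * N)).filter (fun n => Odd n ∧ d ∣ n), ni u n -
      (N : ℂ) / (2 * d) * (ni u N * mi u))).re| ≤ 2 * (R * Q) + 4 := by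
    refine (Complex.abs_re_le_norm _).trans ?_
    rw [norm_mul]
    calc _ ≤ 1 * (2 * (R * Q) + 4) := mul_le_mul hw T1 (norm_nonneg _) zero_le_one
      _ = _ := one_mul _
  refine (abs_add_le _ _).trans ((add_le_add T0 hre).trans ?_)
  -- the final estimate
  have y0 : (2 : ℝ) ≤ L ^ (1 / 30 : ℝ) := by
    have h1 : ((2 : ℝ) ^ 30) ^ (1 / 30 : ℝ) = 2 := by
      rw [← Real.rpow_natCast, ← Real.rpow_mul (by norm_num)]
      norm_num
    calc (2 : ℝ) = ((2 : ℝ) ^ 30) ^ (1 / 30 : ℝ) := h1.symm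
      _ ≤ _ := Real.rpow_le_rpow (by positivity) hL30 (by norm_num)
  set y := L ^ (1 / 30 : ℝ) with hy
  have y5 : L ^ (1 / 6 : ℝ) = y ^ 5 := by
    rw [hy, ← Real.rpow_natCast, ← Real.rpow_mul hL0.le]
    norm_num
  have y6 : L ^ (1 / 5 : ℝ) = y ^ 6 := by
    rw [hy, ← Real.rpow_natCast, ← Real.rpow_mul hL0.le]
    norm_num
  have y30 : L = y ^ 30 := by
    rw [hy, ← Real.rpow_natCast, ← Real.rpow_mul hL0.le]
    norm_num
  have hy5 : (32 : ℝ) ≤ y ^ 5 := by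
    calc (32 : ℝ) = 2 ^ 5 := by norm_num
      _ ≤ y ^ 5 := pow_le_pow_left₀ (by norm_num) y0 5
  have hQ2 : 4 * Q ≤ Real.exp (-(L ^ (1 / 6 : ℝ))) := by
    rw [hQ, y5, y6]
    have h1 : -(y ^ 5) = -(y ^ 6) + (y ^ 6 - y ^ 5) := by ring
    rw [h1, Real.exp_add, mul_comm]
    refine mul_le_mul_of_nonneg_left ?_ (Real.exp_pos _).le
    have h2 : (3 : ℝ) ≤ y ^ 6 - y ^ 5 := by
      have h4 : y ^ 6 - y ^ 5 = y ^ 5 * (y - 1) := by ring
      rw [h4]
      calc (3 : ℝ) ≤ 32 * 1 := by norm_num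
        _ ≤ y ^ 5 * (y - 1) := mul_le_mul hy5 (by linarith) zero_le_one (by linarith)
    have h3 := Real.add_one_le_exp (y ^ 6 - y ^ 5)
    linarith
  have h8 : 16 ≤ R * Real.exp (-(L ^ (1 / 6 : ℝ))) := by
    have h1 : L ^ (1 / 6 : ℝ) ≤ L := by
      rw [y5]
      conv_rhs => rw [y30]
      exact pow_le_pow_right₀ (by linarith) (by norm_num)
    have h2 : Real.exp (-L) ≤ Real.exp (-(L ^ (1 / 6 : ℝ))) :=
      Real.exp_le_exp.2 (neg_le_neg h1)
    have h3 : Real.exp L ≤ R * Real.exp (-L) := by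
      calc Real.exp L = Real.exp L ^ 2 * Real.exp (-L) := by
            rw [← Real.exp_nat_mul, ← Real.exp_add]
            congr 1
            push_cast
            ring
        _ ≤ _ := mul_le_mul_of_nonneg_right hRL (Real.exp_pos _).le
    have h4 : R * Real.exp (-L) ≤ R * Real.exp (-(L ^ (1 / 6 : ℝ))) :=
      mul_le_mul_of_nonneg_left h2 hR0.le
    have h5 := Real.add_one_le_exp L
    have h6 : (15 : ℝ) ≤ 2 ^ 30 := by norm_num
    linarith
  have h9 : R * (4 * Q) ≤ R * Real.exp (-(L ^ (1 / 6 : ℝ))) :=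
    mul_le_mul_of_nonneg_left hQ2 hR0.le
  linarith

end Pool.Agent.H36.VU
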